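import Pool.Agent.N783.CF.WR

/-!
# A normal subgroup of the symmetric group with a cycle of length `n - 1`

Project WR of helper783, leaf GRP, by helper928.
-/

set_option autoImplicit false
set_option linter.all false

open scoped Classical

namespace Pool.Agent.N928.WR

open Pool.Agent.N783.CF

theorem t_GRP : S_GRP := by
  intro g Z iF iD H hg hc hN hs
  obtain ⟨s, hsH, z₀, hz0, htr⟩ := hs
  -- two points
  have hcard : 1 < (Finset.univ.erase z₀ : Finset Z).card := by
    rw [Finset.card_erase_of_mem (Finset.mem_univ _), Finset.card_univ, hc]; omega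
  obtain ⟨a, ha, b, hb, hab⟩ := Finset.one_lt_card.mp hcard
  have ha0 : a ≠ z₀ := (Finset.mem_erase.mp ha).1
  have hmove : ∀ z : Z, z ≠ z₀ → s z ≠ z := by
    intro z hz h
    have hfix : ∀ k : ℕ, (s ^ k) z = z := by
      intro k
      induction k with
      | zero => simp
      | succ k ih => rw [pow_succ, Equiv.Perm.mul_apply, h, ih]
    have hb0 : b ≠ z₀ := (Finset.mem_erase.mp hb).1
    obtain ⟨k, hk⟩ := htr z a hz ha0
    obtain ⟨l, hl⟩ := htr z b hz hb0
    rw [hfix] at hk hl
    exact hab (hk.trans hl.symm)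
  have hcyc : s.IsCycle := by
    refine ⟨a, hmove a ha0, fun y hy => ?_⟩
    have hy0 : y ≠ z₀ := fun h => hy (h ▸ hz0)
    obtain ⟨k, hk⟩ := htr a y ha0 hy0
    exact ⟨(k : ℤ), by rw [zpow_natCast]; exact hk.symm⟩
  have hsupp : s.support = Finset.univ.erase z₀ := by
    ext z
    rw [Equiv.Perm.mem_support, Finset.mem_erase]
    constructor
    · intro h
      exact ⟨fun h' => h (h' ▸ hz0), Finset.mem_univ _⟩
    · rintro ⟨h, -⟩
      exact hmove z h
  have hsign : Equiv.Perm.sign s = -1 := by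
    rw [hcyc.sign, hsupp, Finset.card_erase_of_mem (Finset.mem_univ _), Finset.card_univ, hc]
    rw [show 2 * g + 1 - 1 = 2 * g by omega, pow_mul]
    norm_num
  -- three cycle
  have hsa : s a ≠ a := hmove a ha0
  have hsa0 : s a ≠ z₀ := fun h => ha0 (s.injective (h.trans hz0.symm))
  have h3 : (Equiv.swap z₀ (s a) * Equiv.swap z₀ a).IsThreeCycle :=
    Equiv.Perm.isThreeCycle_swap_mul_swap_same hsa0.symm ha0.symm hsa
  have h3H : Equiv.swap z₀ (s a) * Equiv.swap z₀ a ∈ H := by
    have e1 : Equiv.swap z₀ (s a) * Equiv.swap z₀ a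
        = s * (Equiv.swap z₀ a * s⁻¹ * (Equiv.swap z₀ a)⁻¹) := by
      have : s * Equiv.swap z₀ a * s⁻¹ = Equiv.swap z₀ (s a) := by
        have := Equiv.swap_apply_apply s z₀ a
        rw [hz0] at this
        rw [this]
      rw [← this, Equiv.swap_inv]
      simp only [mul_assoc]
    rw [e1]
    exact H.mul_mem hsH (hN.conj_mem _ (H.inv_mem hsH) _)
  have halt : alternatingGroup Z ≤ H := by
    rw [← Equiv.Perm.closure_three_cycles_eq_alternating, Subgroup.closure_le]
    intro σ hσ
    have hσ' : σ.IsThreeCycle := hσ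
    have hconj : IsConj (Equiv.swap z₀ (s a) * Equiv.swap z₀ a) σ := by
      rw [Equiv.Perm.isConj_iff_cycleType_eq]
      exact h3.trans hσ'.symm
    obtain ⟨c, hc'⟩ := isConj_iff.mp hconj
    show σ ∈ H
    rw [← hc']
    exact hN.conj_mem _ h3H c
  rw [Subgroup.eq_top_iff']
  intro p
  rcases Int.units_eq_one_or (Equiv.Perm.sign p) with h | h
  · exact halt (Equiv.Perm.mem_alternatingGroup.mpr h)
  · have : s⁻¹ * p ∈ H := by
      apply halt
      rw [Equiv.Perm.mem_alternatingGroup, Equiv.Perm.sign_mul, Equiv.Perm.sign_inv, hsign, h]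
      norm_num
    have h2 := H.mul_mem hsH this
    rwa [mul_inv_cancel_left] at h2

end Pool.Agent.N928.WR
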